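import Pool.Agent.Q61.DP.Stm

/-!
# Project DP, job DP-36: a branch over a disc and a lower bound outside give a radial solution
-/

set_option autoImplicit false

namespace Pool.Agent.Q153.DP

open MeasureTheory Topology Filter Set Metric Pool.Agent.Q61.DP

theorem wr_ne {u : ℂ → ℝ} {a b : ℂ → ℂ} (h : Dev u a b) {z : ℂ} (hb : b z = 0) : a z ≠ 0 := by
  intro ha
  have := h.wr z
  rw [ha, hb] at this
  simp at this

theorem square (c d t : ℂ) :
    ‖c + d * t‖ ^ 2 + ‖t‖ ^ 2 =
      (1 + ‖d‖ ^ 2) * ‖t - (-(c * (starRingEnd ℂ) d) / ((1 + ‖d‖ ^ 2 : ℝ) : ℂ))‖ ^ 2 +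
        ‖c‖ ^ 2 / (1 + ‖d‖ ^ 2) := by
  have hpos : (0 : ℝ) < 1 + ‖d‖ ^ 2 := by positivity
  set D : ℝ := 1 + ‖d‖ ^ 2 with hD
  have hDc : (D : ℂ) ≠ 0 := by
    exact_mod_cast hpos.ne'
  have h1 : t - (-(c * (starRingEnd ℂ) d) / ((D : ℝ) : ℂ)) =
      ((D : ℂ) * t + c * (starRingEnd ℂ) d) / (D : ℂ) := by
    field_simp
    ring
  rw [h1, norm_div, Complex.norm_real, Real.norm_of_nonneg hpos.le, div_pow]
  have h2 : D * (‖(D : ℂ) * t + c * (starRingEnd ℂ) d‖ ^ 2 / D ^ 2) + ‖c‖ ^ 2 / D =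
      (‖(D : ℂ) * t + c * (starRingEnd ℂ) d‖ ^ 2 + ‖c‖ ^ 2) / D := by
    field_simp
  rw [h2, eq_div_iff hpos.ne']
  have e1 : ∀ w : ℂ, ‖w‖ ^ 2 = w.re ^ 2 + w.im ^ 2 := fun w => by
    rw [← Complex.normSq_eq_norm_sq, Complex.normSq_apply]
    ring
  have hD2 : D = 1 + (d.re ^ 2 + d.im ^ 2) := by rw [hD, e1]
  rw [e1, e1, e1, e1]
  simp only [Complex.add_re, Complex.add_im, Complex.mul_re, Complex.mul_im, Complex.ofReal_re,
    Complex.ofReal_im, Complex.conj_re, Complex.conj_im]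
  rw [hD2]
  ring

/-- DP-36 -/
theorem s_B1 (_hH : S_HOL) : S_B1 := by
  intro u a b h T T₁ ε G hT₁ hT hε hG hGb hout
  obtain ⟨x, hx⟩ : ∃ x, x = G 0 := ⟨_, rfl⟩
  have hTpos : 0 < T := lt_trans hT₁ hT
  have hbx : b x = 0 := by
    rw [hx, hGb 0 (mem_ball_self hTpos), zero_mul]
  have hax : a x ≠ 0 := wr_ne h hbx
  have hwx : a x * deriv b x = 1 := by
    have := h.wr x
    rw [hbx, mul_zero, sub_zero] at this
    exact this
  have hzero : ∀ z, b z = 0 → z = x := by
    intro z hz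
    by_cases hzG : z ∈ G '' ball 0 T₁
    · obtain ⟨w, hw, rfl⟩ := hzG
      have hw' : w ∈ ball (0 : ℂ) T := ball_subset_ball hT.le hw
      have h1 := hGb w hw'
      rw [hz] at h1
      rcases mul_eq_zero.1 h1.symm with h0 | h0
      · rw [h0, hx]
      · exact absurd h0 (wr_ne h hz)
    · exfalso
      have h1 := hout z hzG
      rw [hz, norm_zero] at h1
      have h2 : ‖a z‖ ≤ 0 := by
        by_contra hcon
        push Not at hcon
        have := mul_pos hε hcon
        linarith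
      exact wr_ne h hz (norm_le_zero_iff.1 h2)
  -- b = (z - x) b1
  have hdiffds : ∀ f : ℂ → ℂ, Differentiable ℂ f → Differentiable ℂ (dslope f x) := by
    intro f hf z
    have := (Complex.differentiableOn_dslope (s := univ) (f := f) (c := x) (by simp)).2
      hf.differentiableOn
    exact (this z (mem_univ z)).differentiableAt univ_mem
  obtain ⟨b1, hb1⟩ : ∃ b1, b1 = dslope b x := ⟨_, rfl⟩
  have hb1d : Differentiable ℂ b1 := by rw [hb1]; exact hdiffds b h.db
  have hbb1 : ∀ z, b z = (z - x) * b1 z := by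
    intro z
    have := sub_smul_dslope b x z
    rw [hbx, sub_zero, smul_eq_mul] at this
    rw [hb1, this]
  have hb1x : b1 x = deriv b x := by rw [hb1, dslope_same]
  have hb1ne : ∀ z, b1 z ≠ 0 := by
    intro z hz
    by_cases hzx : z = x
    · rw [hzx, hb1x] at hz
      rw [hz, mul_zero] at hwx
      exact zero_ne_one hwx
    · exact hzx (hzero z (by rw [hbb1 z, hz, mul_zero]))
  -- the quotient
  obtain ⟨N, hN⟩ : ∃ N : ℂ → ℂ, ∀ z, N z = a z - a x ^ 2 * b1 z :=
    ⟨fun z => a z - a x ^ 2 * b1 z, fun _ => rfl⟩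
  have hNd : Differentiable ℂ N := by
    have : N = fun z => a z - a x ^ 2 * b1 z := funext hN
    rw [this]
    exact h.da.sub (hb1d.const_mul _)
  have hNx : N x = 0 := by
    rw [hN, hb1x]
    have : a x ^ 2 * deriv b x = a x * (a x * deriv b x) := by ring
    rw [this, hwx]
    ring
  obtain ⟨N1, hN1⟩ : ∃ N1, N1 = dslope N x := ⟨_, rfl⟩
  have hN1d : Differentiable ℂ N1 := by rw [hN1]; exact hdiffds N hNd
  have hNN1 : ∀ z, N z = (z - x) * N1 z := by
    intro z
    have := sub_smul_dslope N x z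
    rw [hNx, sub_zero, smul_eq_mul] at this
    rw [hN1, this]
  obtain ⟨ψ, hψ⟩ : ∃ ψ : ℂ → ℂ, ψ = fun z => N1 z / b1 z := ⟨_, rfl⟩
  have hψd : Differentiable ℂ ψ := by
    rw [hψ]
    exact hN1d.div hb1d hb1ne
  have hψz : ∀ z, z ≠ x → ψ z = a z / b z - a x ^ 2 / (z - x) := by
    intro z hz
    have h1 : z - x ≠ 0 := sub_ne_zero.2 hz
    have h2 := hNN1 z
    rw [hN z] at h2
    have h3 : N1 z = (a z - a x ^ 2 * b1 z) / (z - x) := by
      rw [h2]
      field_simp
    rw [hψ]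
    simp only
    rw [h3, hbb1 z]
    have := hb1ne z
    field_simp
  -- bounded
  have hK : IsCompact (G '' closedBall 0 T₁) :=
    (isCompact_closedBall 0 T₁).image_of_continuousOn
      (hG.mono (closedBall_subset_ball hT))
  obtain ⟨M, hM⟩ := (hK.union (isCompact_closedBall x 1)).exists_bound_of_continuousOn
    (f := ψ) hψd.continuous.continuousOn
  have hbd : Bornology.IsBounded (range ψ) := by
    rw [isBounded_iff_forall_norm_le]
    refine ⟨max M (1 / ε + ‖a x‖ ^ 2), ?_⟩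
    rintro _ ⟨z, rfl⟩
    by_cases hz : z ∈ G '' closedBall 0 T₁ ∪ closedBall x 1
    · exact le_max_of_le_left (hM z hz)
    · apply le_max_of_le_right
      rw [mem_union, not_or] at hz
      have hzG : z ∉ G '' ball 0 T₁ := fun hc => hz.1 (image_mono ball_subset_closedBall hc)
      have hz1 : 1 < ‖z - x‖ := by
        have := hz.2
        rw [mem_closedBall, dist_eq_norm, not_le] at this
        exact this
      have hzx : z ≠ x := by
        intro hc
        rw [hc, sub_self, norm_zero] at hz1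
        linarith
      have hbz : b z ≠ 0 := fun hc => hzx (hzero z hc)
      have hbz' : 0 < ‖b z‖ := norm_pos_iff.2 hbz
      rw [hψz z hzx]
      refine (norm_sub_le _ _).trans (add_le_add ?_ ?_)
      · rw [norm_div, div_le_div_iff₀ hbz' hε]
        have := hout z hzG
        linarith
      · rw [norm_div, norm_pow]
        exact div_le_self (by positivity) hz1.le
  obtain ⟨d, hd⟩ := hψd.exists_const_forall_eq_of_bounded hbd
  have ha : ∀ z, a z = (a x ^ 2 + d * (z - x)) * b1 z := by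
    intro z
    have h1 : N1 z = d * b1 z := by
      have := hd z
      rw [hψ] at this
      simp only at this
      rw [div_eq_iff (hb1ne z)] at this
      exact this
    have h2 := hNN1 z
    rw [hN z, h1] at h2
    linear_combination h2
  obtain ⟨c, hc⟩ : ∃ c, c = a x ^ 2 := ⟨_, rfl⟩
  have hc0 : c ≠ 0 := by rw [hc]; exact pow_ne_zero 2 hax
  have ha' : a = fun z => (c + d * (z - x)) * b1 z := by
    funext z
    rw [ha z, hc]
  have hb' : b = fun z => (z - x) * b1 z := funext hbb1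
  have hwr : ∀ z, c * b1 z ^ 2 = 1 := by
    intro z
    have h1 := h.wr z
    have hb1z : HasDerivAt b1 (deriv b1 z) z := (hb1d z).hasDerivAt
    have hsub : HasDerivAt (fun z => z - x) 1 z := (hasDerivAt_id z).sub_const x
    have h2 : deriv b z = 1 * b1 z + (z - x) * deriv b1 z := by
      rw [hb']
      exact (hsub.mul hb1z).deriv
    have h3 : deriv a z = (d * 1) * b1 z + (c + d * (z - x)) * deriv b1 z := by
      rw [ha']
      exact (((hsub.const_mul d).const_add c).mul hb1z).deriv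
    rw [h2, h3, ha' , hb'] at h1
    simp only at h1
    linear_combination h1
  have hb1n : ∀ z, ‖b1 z‖ ^ 2 = 1 / ‖c‖ := by
    intro z
    have h1 := congrArg norm (hwr z)
    rw [norm_mul, norm_pow, norm_one] at h1
    rw [eq_div_iff (norm_ne_zero_iff.2 hc0)]
    linarith
  have hcn : 0 < ‖c‖ := norm_pos_iff.2 hc0
  refine ⟨x + -(c * (starRingEnd ℂ) d) / ((1 + ‖d‖ ^ 2 : ℝ) : ℂ),
    fun r => -Real.log (((1 + ‖d‖ ^ 2) * r ^ 2 + ‖c‖ ^ 2 / (1 + ‖d‖ ^ 2)) / (2 * ‖c‖)), ?_⟩
  intro z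
  simp only
  have h1 := h.nm z
  rw [ha', hb'] at h1
  simp only [norm_mul, mul_pow] at h1
  rw [← add_mul, hb1n z, square c d (z - x)] at h1
  have h2 : Real.exp (-(u z)) = ((1 + ‖d‖ ^ 2) *
      ‖z - (x + -(c * (starRingEnd ℂ) d) / ((1 + ‖d‖ ^ 2 : ℝ) : ℂ))‖ ^ 2 +
        ‖c‖ ^ 2 / (1 + ‖d‖ ^ 2)) / (2 * ‖c‖) := by
    rw [← sub_sub, eq_div_iff (by positivity)]
    rw [mul_one_div, div_eq_iff hcn.ne'] at h1
    linarith
  rw [← h2, Real.log_exp, neg_neg]

end Pool.Agent.Q153.DP
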