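import Pool.Agent.Q153.DP.B1

/-!
# Project DP, job DP-37: a large disc and small values outside give a long distance
-/

set_option autoImplicit false

namespace Pool.Agent.Q153.DP

open MeasureTheory Topology Filter Set Metric Pool.Agent.Q61.DP

theorem le_gdist {u : ℂ → ℝ} {x y : ℂ} {L : ℝ}
    (h : ∀ γ, PiecewiseC1 γ → γ 0 = x → γ 1 = y → L ≤ glength u γ) :
    ENNReal.ofReal L ≤ gdist u x y := by
  unfold gdist
  refine le_iInf fun γ => le_iInf fun hγ => ENNReal.ofReal_le_ofReal (h γ hγ.1 hγ.2.1 hγ.2.2)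

theorem lt_gdist {u : ℂ → ℝ} {x y : ℂ} {L L' : ℝ} (hL : L < L') (h0 : 0 < L')
    (h : ∀ γ, PiecewiseC1 γ → γ 0 = x → γ 1 = y → L' ≤ glength u γ) :
    ENNReal.ofReal L < gdist u x y :=
  lt_of_lt_of_le ((ENNReal.ofReal_lt_ofReal_iff h0).2 hL) (le_gdist h)

theorem th_G {u : ℂ → ℝ} {a b : ℂ → ℂ} (h : Dev u a b) (hT : S_TH) {z w : ℂ}
    (hz : b z = w * a z) : a z ≠ 0 ∧ th a b z = 2 * Real.arctan ‖w‖ := by
  have ha : a z ≠ 0 := by
    intro h0
    rw [h0, mul_zero] at hz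
    exact wr_ne h hz h0
  refine ⟨ha, ?_⟩
  rw [(hT u a b h).1 z ha, hz, norm_mul, mul_div_assoc, div_self (norm_ne_zero_iff.2 ha), mul_one]

/-- DP-37 -/
theorem s_B2 (hH : S_HOL) (hT : S_TH) (hL : S_LEN) : S_B2 := by
  intro u a b h T T₁ G hT₁ hTT hG hGb hout
  have hT₁0 : 0 < T₁ := by linarith
  have hT0 : 0 < T := by linarith
  have hpi4 : Real.pi / 4 < Real.arctan T₁ := by
    rw [← Real.arctan_one]
    exact Real.arctan_strictMono hT₁
  obtain ⟨δ, hδ⟩ : ∃ δ, δ = 4 * Real.arctan T₁ - Real.pi := ⟨_, rfl⟩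
  have hδ0 : 0 < δ := by rw [hδ]; linarith
  obtain ⟨ε, hε, hε'⟩ : ∃ ε : ℝ, 0 < ε ∧ Real.arctan ε < δ / 4 := by
    have h1 : Tendsto Real.arctan (𝓝 0) (𝓝 0) := by
      have := Real.continuous_arctan.tendsto 0
      rwa [Real.arctan_zero] at this
    have h2 : ∀ᶠ ε in 𝓝[>] (0:ℝ), Real.arctan ε < δ / 4 :=
      (h1.mono_left nhdsWithin_le_nhds).eventually (gt_mem_nhds (by linarith))
    obtain ⟨ε, hε⟩ := (h2.and self_mem_nhdsWithin).exists
    exact ⟨ε, hε.2, hε.1⟩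
  obtain ⟨y, hy, hy'⟩ := hout ε hε
  have hay : a y ≠ 0 := by
    intro h0
    rw [h0, norm_zero, mul_zero] at hy'
    exact absurd hy' (not_lt.2 (norm_nonneg _))
  have hthy : th a b y < δ / 2 := by
    rw [(hT u a b h).1 y hay]
    have : ‖b y‖ / ‖a y‖ < ε := by
      rw [div_lt_iff₀ (norm_pos_iff.2 hay)]
      exact hy'
    have := Real.arctan_strictMono this
    linarith
  have hthx : th a b (G 0) = 0 := by
    rw [(th_G h hT (hGb 0 (mem_ball_self hT0))).2]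
    simp
  obtain ⟨hd, ha2, hinj, hopen⟩ := hH u a b h (ball 0 T) G isOpen_ball hG hGb
  have hOp : IsOpen (G '' ball 0 T₁) := hopen (ball 0 T₁) (ball_subset_ball hTT.le) isOpen_ball
  have hcl : IsClosed (G '' closedBall 0 T₁) :=
    ((isCompact_closedBall 0 T₁).image_of_continuousOn
      (hG.mono (closedBall_subset_ball hTT))).isClosed
  refine ⟨G 0, y, lt_gdist (L' := Real.pi + δ / 2) (by linarith) (by positivity) ?_⟩
  intro γ hγ h0 h1
  have hcon : IsPreconnected (γ '' Icc 0 1) := isPreconnected_Icc.image γ hγ.1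
  have hp : ∃ t ∈ Icc (0:ℝ) 1, γ t ∉ G '' ball 0 T₁ ∧ γ t ∈ G '' closedBall 0 T₁ := by
    by_cases hyc : y ∈ G '' closedBall 0 T₁
    · exact ⟨1, right_mem_Icc.2 zero_le_one, by rw [h1]; exact hy, by rw [h1]; exact hyc⟩
    · by_contra hno
      push Not at hno
      have h2 : (γ '' Icc 0 1 ∩ G '' ball 0 T₁).Nonempty :=
        ⟨G 0, ⟨0, left_mem_Icc.2 zero_le_one, h0⟩, ⟨0, mem_ball_self hT₁0, rfl⟩⟩
      have h3 : (γ '' Icc 0 1 ∩ (G '' closedBall 0 T₁)ᶜ).Nonempty :=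
        ⟨y, ⟨1, right_mem_Icc.2 zero_le_one, h1⟩, hyc⟩
      obtain ⟨p, _, hp1, hp2⟩ := hcon _ _ hOp hcl.isOpen_compl (by
        rintro _ ⟨t, ht, rfl⟩
        by_cases h4 : γ t ∈ G '' ball 0 T₁
        · exact Or.inl h4
        · exact Or.inr (hno t ht h4)) h2 h3
      exact hp2 (image_mono ball_subset_closedBall hp1)
  obtain ⟨t, ht, hp2, h4⟩ := hp
  obtain ⟨w, hw, hwt⟩ := h4
  have hwn : ‖w‖ = T₁ := by
    apply le_antisymm (by simpa using hw)
    by_contra hc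
    push Not at hc
    exact hp2 ⟨w, by simpa using hc, hwt⟩
  have htht : th a b (γ t) = 2 * Real.arctan T₁ := by
    rw [← hwt, (th_G h hT (hGb w (closedBall_subset_ball hTT hw))).2, hwn]
  have h5 := hL u a b h γ hγ t ht
  rw [h0, h1, hthx, htht] at h5
  have h6 := le_abs_self (2 * Real.arctan T₁ - 0)
  have h7 := neg_abs_le (th a b y - 2 * Real.arctan T₁)
  linarith

end Pool.Agent.Q153.DP
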