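import Pool.Agent.Q153.DP.B1

/-!
# Project DP, job DP-42: an unbounded quotient
-/

set_option autoImplicit false

namespace Pool.Agent.Q153.DP

open MeasureTheory Topology Filter Set Metric Pool.Agent.Q61.DP

/-- a holomorphic function with real values on an open set has derivative zero -/
theorem deriv_zero_of_real {F : ℂ → ℂ} {F' : ℂ} {G : Set ℂ} (hG : IsOpen G) {z : ℂ} (hz : z ∈ G)
    (hF : HasDerivAt F F' z) (h : ∀ x ∈ G, (F x).im = 0) : F' = 0 := by
  have h1 : HasFDerivAt F (F' • (1 : ℂ →L[ℝ] ℂ)) z := hF.complexToReal_fderiv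
  have h2 : HasFDerivAt (fun x => (F x).im) (Complex.imCLM.comp (F' • (1 : ℂ →L[ℝ] ℂ))) z :=
    Complex.imCLM.hasFDerivAt.comp z h1
  have h3 : (fun x => (F x).im) =ᶠ[𝓝 z] fun _ => (0 : ℝ) := by
    filter_upwards [hG.mem_nhds hz] with x hx using h x hx
  have h4 : HasFDerivAt (fun x => (F x).im) (0 : ℂ →L[ℝ] ℝ) z :=
    (hasFDerivAt_const (0 : ℝ) z).congr_of_eventuallyEq h3
  have h5 := h2.unique h4
  have h6 : (F' * (Complex.I * (starRingEnd ℂ) F')).im = 0 := by
    have := congrArg (fun L : ℂ →L[ℝ] ℝ => L (Complex.I * (starRingEnd ℂ) F')) h5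
    simpa using this
  have h7 : F' * (Complex.I * (starRingEnd ℂ) F') = ((Complex.normSq F' : ℝ) : ℂ) * Complex.I := by
    rw [Complex.normSq_eq_conj_mul_self]
    ring
  rw [h7] at h6
  have h8 : Complex.normSq F' = 0 := by simpa using h6
  exact Complex.normSq_eq_zero.1 h8

/-- DP-42 -/
theorem s_P3 (hP : S_P1) : S_P3 := by
  intro u a b h G z₀ s₀ s₁ hG hne hz₀ hs hfr M
  by_contra hcon
  push Not at hcon
  have hs' : s₁ - s₀ ≠ 0 := sub_ne_zero.2 hs.symm
  have haG : ∀ z ∈ G, a z ≠ 0 := by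
    intro z hz ha
    have h1 := hcon z hz
    rw [ha, norm_zero, mul_zero] at h1
    exact wr_ne h (norm_le_zero_iff.1 h1) ha
  have hacl : ∀ z ∈ closure G, a z ≠ 0 := by
    intro z hz
    by_cases hzG : z ∈ G
    · exact haG z hzG
    · exact (hfr z (by rw [hG.frontier_eq]; exact ⟨hz, hzG⟩)).1
  obtain ⟨F, hF⟩ : ∃ F : ℂ → ℂ, F = fun z => (b z / a z - s₀) / (s₁ - s₀) := ⟨_, rfl⟩
  have hFd : DiffContOnCl ℂ F G := by
    rw [hF]
    constructor
    · intro z hz
      exact ((((h.db z).div (h.da z) (haG z hz)).sub_const s₀).div_const _).differentiableWithinAt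
    · exact ((h.db.continuous.continuousOn.div h.da.continuous.continuousOn hacl).sub
        continuousOn_const).div_const _
  have hbd : ∀ z ∈ G, ‖F z‖ ≤ (M + ‖s₀‖) / ‖s₁ - s₀‖ := by
    intro z hz
    rw [hF]
    simp only
    rw [norm_div]
    have h1 : ‖b z / a z - s₀‖ ≤ M + ‖s₀‖ := by
      refine (norm_sub_le _ _).trans (add_le_add ?_ le_rfl)
      rw [norm_div, div_le_iff₀ (norm_pos_iff.2 (haG z hz))]
      exact hcon z hz
    gcongr
  have him := hP G F _ z₀ hG hz₀ hFd hbd (by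
    intro z hz
    rw [hF]
    exact (hfr z hz).2)
  obtain ⟨z, hz⟩ := hne
  have hd : HasDerivAt F (1 / a z ^ 2 / (s₁ - s₀)) z := by
    have h1 := ((((h.db z).hasDerivAt.div (h.da z).hasDerivAt (haG z hz)).sub_const s₀).div_const
      (s₁ - s₀))
    have h2 := h.wr z
    have h3 : deriv b z * a z - b z * deriv a z = 1 := by linear_combination h2
    rw [h3] at h1
    rw [hF]
    exact h1
  have h0 := deriv_zero_of_real hG hz hd him
  have h1 : (1 / a z ^ 2 / (s₁ - s₀)) ≠ 0 :=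
    div_ne_zero (div_ne_zero one_ne_zero (pow_ne_zero 2 (haG z hz))) hs'
  exact h1 h0

end Pool.Agent.Q153.DP
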