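import Pool.Agent.Q153.DP.B2

/-!
# Project DP, job DP-43: two singular points on the circle of a disc
-/

set_option autoImplicit false

namespace Pool.Agent.Q153.DP

open MeasureTheory Topology Filter Set Metric Pool.Agent.Q61.DP

theorem chord {w₁ s₀ s₁ : ℂ} {ρ : ℝ} (h0 : s₀ ∈ sphere w₁ ρ) (h1 : s₁ ∈ sphere w₁ ρ) (x : ℝ) :
    ‖s₀ + x * (s₁ - s₀) - w₁‖ ^ 2 = ρ ^ 2 - x * (1 - x) * ‖s₁ - s₀‖ ^ 2 := by
  rw [mem_sphere, dist_eq_norm] at h0 h1
  have e1 : ∀ w : ℂ, ‖w‖ ^ 2 = w.re ^ 2 + w.im ^ 2 := fun w => by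
    rw [← Complex.normSq_eq_norm_sq, Complex.normSq_apply]
    ring
  have h0' := e1 (s₀ - w₁)
  have h1' := e1 (s₁ - w₁)
  rw [h0] at h0'
  rw [h1] at h1'
  rw [e1, e1]
  simp only [Complex.add_re, Complex.add_im, Complex.sub_re, Complex.sub_im, Complex.mul_re,
    Complex.mul_im, Complex.ofReal_re, Complex.ofReal_im] at *
  linear_combination (-(1 - x)) * h0' + (-x) * h1'

/-- DP-43 -/
theorem s_P4 (hH : S_HOL) (hT : S_TH) (hL : S_LEN) (hS : S_SEP) (hP : S_P3) : S_P4 := by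
  intro u a b h w₁ s₀ s₁ ρ G hρ hs₀ hs₁ hne hn₀ hn₁ hG hGb ht₀ ht₁
  have hs' : s₁ - s₀ ≠ 0 := sub_ne_zero.2 hne.symm
  have hsn : 0 < ‖s₁ - s₀‖ ^ 2 := by positivity
  obtain ⟨A, hA⟩ : ∃ A : ℂ → ℂ, ∀ s, A s = (s - s₀) / (s₁ - s₀) := ⟨_, fun _ => rfl⟩
  have hAc : Continuous A := by
    have : A = fun s => (s - s₀) / (s₁ - s₀) := funext hA
    rw [this]
    exact (continuous_id.sub continuous_const).div_const _
  have hAinv : ∀ s, s = s₀ + A s * (s₁ - s₀) := by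
    intro s
    rw [hA]
    field_simp
    ring
  -- points of the disc on the line
  have hline : ∀ s ∈ ball w₁ ρ, (A s).im = 0 → ∃ x : ℝ, 0 < x ∧ x < 1 ∧
      s = s₀ + x * (s₁ - s₀) := by
    intro s hs him
    have hx : A s = ((A s).re : ℂ) := by
      apply Complex.ext <;> simp [him]
    refine ⟨(A s).re, ?_⟩
    have h1 := chord hs₀ hs₁ (A s).re
    rw [← hx, ← hAinv s] at h1
    rw [mem_ball, dist_eq_norm] at hs
    have h2 : ‖s - w₁‖ ^ 2 < ρ ^ 2 := by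
      apply pow_lt_pow_left₀ hs (norm_nonneg _) two_ne_zero
    have h3 : 0 < (A s).re * (1 - (A s).re) := by
      by_contra hc
      push Not at hc
      have := mul_nonpos_of_nonpos_of_nonneg hc hsn.le
      linarith
    refine ⟨?_, ?_, ?_⟩
    · by_contra hc
      push Not at hc
      have : (A s).re * (1 - (A s).re) ≤ 0 :=
        mul_nonpos_of_nonpos_of_nonneg hc (by linarith)
      linarith
    · by_contra hc
      push Not at hc
      have : (A s).re * (1 - (A s).re) ≤ 0 :=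
        mul_nonpos_of_nonneg_of_nonpos (by linarith) (by linarith)
      linarith
    · rw [← hx]
      exact hAinv s
  have hinside : ∀ x : ℝ, 0 < x → x < 1 → s₀ + x * (s₁ - s₀) ∈ ball w₁ ρ := by
    intro x hx hx'
    rw [mem_ball, dist_eq_norm]
    have h1 := chord hs₀ hs₁ x
    have h2 : 0 < x * (1 - x) * ‖s₁ - s₀‖ ^ 2 := mul_pos (mul_pos hx (by linarith)) hsn
    exact lt_of_pow_lt_pow_left₀ 2 hρ.le (by linarith)
  have hAx : ∀ x : ℂ, A (s₀ + x * (s₁ - s₀)) = x := by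
    intro x
    rw [hA]
    field_simp
    ring
  obtain ⟨hd, ha2, hinj, hopen⟩ := hH u a b h (ball w₁ ρ) G isOpen_ball hG hGb
  obtain ⟨N, hN⟩ : ∃ N, N = G '' ball w₁ ρ := ⟨_, rfl⟩
  have hNo : IsOpen N := by rw [hN]; exact hopen _ Subset.rfl isOpen_ball
  have hNp : IsPreconnected N := by
    rw [hN]
    exact (convex_ball w₁ ρ).isPreconnected.image G hG
  obtain ⟨τ, hτ⟩ : ∃ τ : ℂ → ℝ, ∀ z, τ z = (A (b z / a z)).im := ⟨_, fun _ => rfl⟩
  have hquot : ∀ s ∈ ball w₁ ρ, b (G s) / a (G s) = s := by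
    intro s hs
    rw [hGb s hs, mul_div_assoc, div_self (ha2 s hs).1, mul_one]
  have hτG : ∀ s ∈ ball w₁ ρ, τ (G s) = (A s).im := by
    intro s hs
    rw [hτ, hquot s hs]
  have haN : ∀ z ∈ N, a z ≠ 0 := by
    rw [hN]
    rintro _ ⟨s, hs, rfl⟩
    exact (ha2 s hs).1
  have hτc : ContinuousOn τ N := by
    have : τ = fun z => (A (b z / a z)).im := funext hτ
    rw [this]
    exact Complex.continuous_im.comp_continuousOn (hAc.comp_continuousOn
      (h.db.continuous.continuousOn.div h.da.continuous.continuousOn haN))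
  obtain ⟨e, he⟩ : ∃ e : Set ℂ, e = {z | z ∈ N ∧ τ z = 0} := ⟨_, rfl⟩
  have heG : ∀ z ∈ e, ∃ x : ℝ, 0 < x ∧ x < 1 ∧ z = G (s₀ + x * (s₁ - s₀)) := by
    intro z hz
    rw [he, hN] at hz
    obtain ⟨⟨s, hs, rfl⟩, hz⟩ := hz
    rw [hτG s hs] at hz
    obtain ⟨x, hx, hx', hsx⟩ := hline s hs hz
    exact ⟨x, hx, hx', by rw [← hsx]⟩
  have hGe : ∀ x : ℝ, 0 < x → x < 1 → G (s₀ + x * (s₁ - s₀)) ∈ e := by
    intro x hx hx'
    have h1 := hinside x hx hx'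
    rw [he, hN]
    refine ⟨⟨_, h1, rfl⟩, ?_⟩
    rw [hτG _ h1, hAx]
    exact Complex.ofReal_im x
  -- `e` is closed
  have hlinec : Continuous fun x : ℝ => s₀ + (x : ℂ) * (s₁ - s₀) :=
    continuous_const.add (Complex.continuous_ofReal.mul continuous_const)
  have hecl : IsClosed e := by
    refine IsSeqClosed.isClosed ?_
    intro z zs hz hzs
    choose x hx0 hx1 hxG using fun n => heG (z n) (hz n)
    obtain ⟨xs, hxs, φ, hφ, hφt⟩ := isCompact_Icc.tendsto_subseq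
      (x := x) (s := Icc (0:ℝ) 1) (fun n => ⟨(hx0 n).le, (hx1 n).le⟩)
    have hlim : Tendsto (fun n => s₀ + (x (φ n) : ℂ) * (s₁ - s₀)) atTop
        (𝓝 (s₀ + (xs : ℂ) * (s₁ - s₀))) := (hlinec.tendsto xs).comp hφt
    have hzlim : Tendsto (fun n => G (s₀ + (x (φ n) : ℂ) * (s₁ - s₀))) atTop (𝓝 zs) := by
      have h1 := hzs.comp hφ.tendsto_atTop
      refine h1.congr fun n => ?_
      simp only [Function.comp]
      rw [hxG]
    have hin : ∀ n, s₀ + (x (φ n) : ℂ) * (s₁ - s₀) ∈ ball w₁ ρ := fun n =>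
      hinside _ (hx0 _) (hx1 _)
    have hnoinf : ∀ s, s₀ + (xs : ℂ) * (s₁ - s₀) = s → Tendsto G (𝓝[ball w₁ ρ] s) (cocompact ℂ) →
        False := by
      intro s hs hts
      have h1 : Tendsto (fun n => s₀ + (x (φ n) : ℂ) * (s₁ - s₀)) atTop (𝓝[ball w₁ ρ] s) := by
        rw [← hs]
        exact tendsto_nhdsWithin_iff.2 ⟨hlim, Eventually.of_forall hin⟩
      exact hzlim.not_tendsto (disjoint_nhds_cocompact zs) (hts.comp h1)
    have hx0' : 0 < xs := by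
      refine lt_of_le_of_ne hxs.1 fun h0 => hnoinf s₀ ?_ ht₀
      rw [← h0]
      simp
    have hx1' : xs < 1 := by
      refine lt_of_le_of_ne hxs.2 fun h0 => hnoinf s₁ ?_ ht₁
      rw [h0]
      simp
    have h2 : zs = G (s₀ + (xs : ℂ) * (s₁ - s₀)) := by
      have h3 := (hG.continuousAt (isOpen_ball.mem_nhds (hinside xs hx0' hx1'))).tendsto.comp hlim
      exact tendsto_nhds_unique hzlim h3
    rw [h2]
    exact hGe xs hx0' hx1'
  obtain ⟨G₁, G₂, hG₁, hG₂, hdis, hun, hpos, hneg⟩ := hS N τ hNo hNp hτc (by rw [← he]; exact hecl)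
  rw [← he] at hun
  -- both sides are not empty
  have hside : ∀ σ : ℝ, ∃ η : ℝ, 0 < η ∧
      s₀ + (1 / 2 + (σ * η : ℝ) * Complex.I) * (s₁ - s₀) ∈ ball w₁ ρ := by
    intro σ
    have hc : Continuous fun η : ℝ => s₀ + (1 / 2 + ((σ * η : ℝ) : ℂ) * Complex.I) * (s₁ - s₀) := by
      fun_prop
    have h1 : s₀ + (1 / 2 + ((σ * 0 : ℝ) : ℂ) * Complex.I) * (s₁ - s₀) ∈ ball w₁ ρ := by
      have := hinside (1 / 2) (by norm_num) (by norm_num)
      simpa using this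
    have h2 : ∀ᶠ η in 𝓝[>] (0:ℝ), s₀ + (1 / 2 + ((σ * η : ℝ) : ℂ) * Complex.I) * (s₁ - s₀) ∈
        ball w₁ ρ :=
      ((hc.tendsto 0).mono_left nhdsWithin_le_nhds).eventually (isOpen_ball.mem_nhds h1)
    obtain ⟨η, hη⟩ := (h2.and self_mem_nhdsWithin).exists
    exact ⟨η, hη.2, hη.1⟩
  have hne₁ : G₁.Nonempty := by
    obtain ⟨η, hη, hin⟩ := hside 1
    refine ⟨_, hpos (G _) (by rw [hN]; exact ⟨_, hin, rfl⟩) ?_⟩
    rw [hτG _ hin, hAx]
    simpa using hη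
  have hne₂ : G₂.Nonempty := by
    obtain ⟨η, hη, hin⟩ := hside (-1)
    refine ⟨_, hneg (G _) (by rw [hN]; exact ⟨_, hin, rfl⟩) ?_⟩
    rw [hτG _ hin, hAx]
    simpa using hη
  have hcl₁ : Disjoint (closure G₁) G₂ := hdis.closure_left hG₂
  have hcl₂ : Disjoint (closure G₂) G₁ := hdis.symm.closure_left hG₁
  have hfr : ∀ H K : Set ℂ, IsOpen H → Disjoint (closure H) K → H ∪ K = eᶜ →
      ∀ z ∈ frontier H, z ∈ e := by
    intro H K hH1 hd1 hu1 z hz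
    rw [hH1.frontier_eq] at hz
    by_contra hc
    have : z ∈ H ∪ K := by rw [hu1]; exact hc
    rcases this with h1 | h1
    · exact hz.2 h1
    · exact disjoint_left.1 hd1 hz.1 h1
  have hecond : ∀ z ∈ e, a z ≠ 0 ∧ ((b z / a z - s₀) / (s₁ - s₀)).im = 0 := by
    intro z hz
    rw [he] at hz
    refine ⟨haN z hz.1, ?_⟩
    have := hz.2
    rw [hτ, hA] at this
    exact this
  -- constants
  obtain ⟨ρ₀, hρ₀⟩ : ∃ ρ₀, ρ₀ = max ‖s₀‖ ‖s₁‖ := ⟨_, rfl⟩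
  have hρ₀1 : ρ₀ < 1 := by rw [hρ₀]; exact max_lt hn₀ hn₁
  have hρ₀a : Real.arctan ρ₀ < Real.pi / 4 := by
    rw [← Real.arctan_one]
    exact Real.arctan_strictMono hρ₀1
  obtain ⟨δ, hδ⟩ : ∃ δ, δ = Real.pi / 4 - Real.arctan ρ₀ := ⟨_, rfl⟩
  have hδ0 : 0 < δ := by rw [hδ]; linarith
  obtain ⟨M, hM⟩ : ∃ M : ℝ, Real.pi / 2 - δ / 2 < Real.arctan M := by
    have h1 : Tendsto Real.arctan atTop (𝓝 (Real.pi / 2)) :=
      Real.tendsto_arctan_atTop.mono_right nhdsWithin_le_nhds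
    exact (h1.eventually (lt_mem_nhds (by linarith))).exists
  obtain ⟨z₁, hz₁⟩ := hne₁
  obtain ⟨z₂, hz₂⟩ := hne₂
  obtain ⟨x, hx, hxM⟩ := hP u a b h G₁ z₂ s₀ s₁ hG₁ ⟨z₁, hz₁⟩
    (fun hc => disjoint_left.1 hcl₁ hc hz₂) hne
    (fun z hz => hecond z (hfr G₁ G₂ hG₁ hcl₁ hun z hz)) M
  obtain ⟨y, hy, hyM⟩ := hP u a b h G₂ z₁ s₀ s₁ hG₂ ⟨z₂, hz₂⟩
    (fun hc => disjoint_left.1 hcl₂ hc hz₁) hne
    (fun z hz => hecond z (hfr G₂ G₁ hG₂ hcl₂ (by rw [union_comm]; exact hun) z hz)) M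
  have hbig : ∀ z, M * ‖a z‖ < ‖b z‖ → 2 * Real.arctan M < th a b z := by
    intro z hz
    by_cases haz : a z = 0
    · rw [((hT u a b h).2.1 z haz).2]
      have := Real.arctan_lt_pi_div_two M
      linarith
    · rw [(hT u a b h).1 z haz]
      have h1 : M < ‖b z‖ / ‖a z‖ := by
        rw [lt_div_iff₀ (norm_pos_iff.2 haz)]
        exact hz
      have := Real.arctan_strictMono h1
      linarith
  refine ⟨x, y, lt_gdist (L' := Real.pi + 2 * δ) (by linarith) (by positivity) ?_⟩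
  intro γ hγ h0 h1
  have hcon : IsPreconnected (γ '' Icc 0 1) := isPreconnected_Icc.image γ hγ.1
  have hmeet : ∃ t ∈ Icc (0:ℝ) 1, γ t ∈ e := by
    by_contra hno
    push Not at hno
    obtain ⟨p, _, hp1, hp2⟩ := hcon G₁ G₂ hG₁ hG₂ (by
        rintro _ ⟨t, ht, rfl⟩
        rw [hun]
        exact hno t ht) ⟨x, ⟨0, left_mem_Icc.2 zero_le_one, h0⟩, hx⟩
        ⟨y, ⟨1, right_mem_Icc.2 zero_le_one, h1⟩, hy⟩
    exact disjoint_left.1 hdis hp1 hp2
  obtain ⟨t, ht, hte⟩ := hmeet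
  obtain ⟨q, hq0, hq1, hqG⟩ := heG _ hte
  have hqn : ‖s₀ + (q : ℂ) * (s₁ - s₀)‖ ≤ ρ₀ := by
    have e1 : s₀ + (q : ℂ) * (s₁ - s₀) = ((1 - q : ℝ) : ℂ) * s₀ + (q : ℂ) * s₁ := by
      push_cast
      ring
    rw [e1]
    refine (norm_add_le _ _).trans ?_
    rw [norm_mul, norm_mul, Complex.norm_real, Complex.norm_real, Real.norm_of_nonneg (by linarith),
      Real.norm_of_nonneg hq0.le]
    have h2 : ‖s₀‖ ≤ ρ₀ := by rw [hρ₀]; exact le_max_left _ _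
    have h3 : ‖s₁‖ ≤ ρ₀ := by rw [hρ₀]; exact le_max_right _ _
    have h4 := mul_le_mul_of_nonneg_left h2 (by linarith : 0 ≤ 1 - q)
    have h5 := mul_le_mul_of_nonneg_left h3 hq0.le
    linarith
  have htht : th a b (γ t) ≤ 2 * Real.arctan ρ₀ := by
    rw [hqG, (th_G h hT (hGb _ (hinside q hq0 hq1))).2]
    have := Real.arctan_strictMono.monotone hqn
    linarith
  have h5 := hL u a b h γ hγ t ht
  rw [h0, h1] at h5
  have h6 := hbig x hxM
  have h7 := hbig y hyM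
  have h8 := neg_abs_le (th a b (γ t) - th a b x)
  have h9 := le_abs_self (th a b y - th a b (γ t))
  linarith

end Pool.Agent.Q153.DP
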